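import Pool.Agent.Helper1.RK.StE

/-! # Project RK, part E, module VFR: the field of rational functions has the structure `VF` -/

set_option autoImplicit false

namespace Pool.Agent.Helper28.RK

open Pool.Agent.Helper1.RK

theorem pVFR (h1 : StEMB) (h2 : StTOP) (h3 : StTWF) : StVFR := by
  intro F _ _ I
  obtain ⟨K, iK, iC, iA, X, pd, ψ, hX, hC, hp1, hp2, hp3, hconst, H⟩ := h1 F I
  choose L iL iLc iLa Λ dl Dc Dt HX Hdc HDt Hi Hj Hcst Hlc0 using H
  choose lc Hlc using Hlc0
  have inj : ∀ i, Function.Injective (Λ i) := fun i => (Λ i).injective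
  have ne0 : ∀ i g, g ≠ 0 → Λ i g ≠ 0 := fun i g hg => (map_ne_zero (Λ i)).2 hg
  have hC0 : ∀ i (a : L i), RatFunc.C a = 0 → a = 0 := by
    intro i a h
    exact (map_eq_zero (RatFunc.C : L i →+* RatFunc (L i))).1 h
  -- derivation `pd j` of an element with constant image
  have pdC : ∀ i j, j ≠ i → ∀ (g : K) (a : L i), Λ i g = RatFunc.C a →
      (pd j g = 0 ↔ dl i j a = 0) := by
    intro i j hji g a h
    have e : Λ i (pd j g) = RatFunc.C (dl i j a) := by
      rw [Hj i j hji, h, (Hdc i j).1]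
    constructor
    · intro h0
      rw [h0, map_zero] at e
      exact hC0 i _ e.symm
    · intro h0
      rw [h0, map_zero] at e
      exact (map_eq_zero (Λ i)).1 e
  have fin : ∀ i j g, j ≠ i → dl i j (Λ i g).num.leadingCoeff = 0 → pd j (lc i g) = 0 := by
    intro i j g hji h
    exact (pdC i j hji (lc i g) _ (Hlc i g)).2 h
  refine ⟨K, iK, iC, iA, X, pd, fun i g => RatFunc.intDegree (Λ i g), lc, ψ, hX, hC, ?_⟩
  have lcpd : ∀ i g, pd i (lc i g) = 0 := fun i g => (Hcst i (lc i g)).2 ⟨_, Hlc i g⟩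
  refine
    { pd_self := hp1
      pd_ne := hp2
      pd_const := hp3
      const := hconst
      deg_mul := ?_
      lc_mul := ?_
      lc_ne := ?_
      deg_pd := ?_
      lc_pd := lcpd
      lc_pd' := ?_
      cub := ?_
      jac := ?_
      two := ?_ }
  · intro i g h hg hh
    show RatFunc.intDegree (Λ i (g * h)) = RatFunc.intDegree (Λ i g) + RatFunc.intDegree (Λ i h)
    rw [map_mul]
    exact ((h2 (L i)).1 _ _ (ne0 i g hg) (ne0 i h hh)).1
  · intro i g h hg hh
    apply inj i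
    rw [map_mul, Hlc, Hlc, Hlc, map_mul, ((h2 (L i)).1 _ _ (ne0 i g hg) (ne0 i h hh)).2, map_mul]
  · intro i g hg h0
    have h := Hlc i g
    rw [h0, map_zero] at h
    have h' := hC0 i _ h.symm
    rw [Polynomial.leadingCoeff_eq_zero] at h'
    exact ne0 i g hg (RatFunc.num_eq_zero_iff.1 h')
  · intro i g hg hpd
    obtain ⟨a, ha⟩ := (Hcst i g).1 hpd
    obtain ⟨e1, e2⟩ := (h2 (L i)).2.1 a
    refine ⟨?_, ?_⟩
    · show RatFunc.intDegree (Λ i g) = 0
      rw [ha]
      exact e1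
    · apply inj i
      rw [Hlc, ha, e2]
  · intro i j g hg
    by_cases hji : j = i
    · rw [hji]
      exact lcpd i g
    · apply fin i j g hji
      apply (h2 (L i)).2.2.1 (dl i j) (Dc i j) (Hdc i j)
      rw [← Hj i j hji, hg, map_zero]
  · intro i a b ha hb
    obtain ⟨α, hα⟩ := (Hcst i a).1 ha
    obtain ⟨β, hβ⟩ := (Hcst i b).1 hb
    have e : Λ i (X i ^ 3 + a * X i + b) =
        RatFunc.X ^ 3 + RatFunc.C α * RatFunc.X + RatFunc.C β := by
      rw [map_add, map_add, map_pow, map_mul, HX, hα, hβ]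
    obtain ⟨e1, e2, e3⟩ := (h2 (L i)).2.2.2.1 α β
    refine ⟨?_, ?_, ?_⟩
    · intro h0
      rw [h0, map_zero] at e
      exact e1 e.symm
    · show RatFunc.intDegree (Λ i (X i ^ 3 + a * X i + b)) = 3
      rw [e]
      exact e2
    · apply inj i
      rw [Hlc, e, e3, map_one, map_one]
  · intro i j m A hm hA d1 d2 hrel
    by_cases hji : j = i
    · rw [hji]
      exact lcpd i m
    · apply fin i j m hji
      refine (h2 (L i)).2.2.2.2 (dl i j) (Dc i j) (Dt i) (Hdc i j) (HDt i) (Λ i m) (Λ i A)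
        (ne0 i m hm) (ne0 i A hA) d1 d2 ?_
      rw [← Hj i j hji, ← Hj i j hji, ← Hi, ← Hi, ← map_mul, ← map_mul, hrel]
  · intro i j a b a' b' e w w' a1 b1 a2 b2 a3 b3 a4 b4 dis1 dis2 e1 he hw hw' hsq
    by_cases hji : j = i
    · rw [hji, mul_comm]
    · obtain ⟨α, hα⟩ := (Hcst i a).1 a1
      obtain ⟨β, hβ⟩ := (Hcst i b).1 b1
      obtain ⟨α', hα'⟩ := (Hcst i a').1 a2
      obtain ⟨β', hβ'⟩ := (Hcst i b').1 b2
      obtain ⟨ε, hε⟩ := (Hcst i e).1 e1
      have w1 : wei α β (Λ i w) = Λ i (w ^ 3 + a * w + b) := by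
        unfold wei
        rw [map_add, map_add, map_pow, map_mul, hα, hβ]
      have w2 : wei α' β' (Λ i w') = Λ i (w' ^ 3 + a' * w' + b') := by
        unfold wei
        rw [map_add, map_add, map_pow, map_mul, hα', hβ']
      have dd : ∀ (x y : K) (ξ η : L i), Λ i x = RatFunc.C ξ → Λ i y = RatFunc.C η →
          4 * x ^ 3 + 27 * y ^ 2 ≠ 0 → 4 * ξ ^ 3 + 27 * η ^ 2 ≠ 0 := by
        intro x y ξ η hx hy hne h0
        apply hne
        apply inj i
        rw [map_zero, map_add, map_mul, map_mul, map_pow, map_pow, hx, hy, map_ofNat, map_ofNat]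
        have h := congrArg (RatFunc.C : L i →+* RatFunc (L i)) h0
        rw [map_zero, map_add, map_mul, map_mul, map_pow, map_pow, map_ofNat, map_ofNat] at h
        exact h
      have hε0 : ε ≠ 0 := by
        intro h
        rw [h, map_zero] at hε
        exact ne0 i e he hε
      have key := h3 (L i) (dl i j) (Dc i j) (Dt i) α β α' β' ε (Λ i w) (Λ i w') (Hdc i j) (HDt i)
        ((pdC i j hji a α hα).1 a3) ((pdC i j hji b β hβ).1 b3) ((pdC i j hji a' α' hα').1 a4)
        ((pdC i j hji b' β' hβ').1 b4) (dd a b α β hα hβ dis1) (dd a' b' α' β' hα' hβ' dis2) hε0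
        (by rw [w1]; exact ne0 i _ hw) (by rw [w2]; exact ne0 i _ hw')
        (by rw [w1, w2, ← hε, ← map_mul, ← map_mul]; exact hsq.map (Λ i))
      apply inj i
      rw [map_mul, map_mul, Hj i j hji, Hj i j hji, Hi, Hi]
      exact key

end Pool.Agent.Helper28.RK
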