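import Pool.Agent.Helper1.RK.StB

/-!
# Project RK (MP_de00bc_nt): module GDC (good coordinate)
-/

set_option autoImplicit false

namespace Pool.Agent.Helper28.RK

open Polynomial Pool.Agent.Helper1.RK

private theorem gdc_C {L : Type} [Field L] (φ : RatFunc L →ₐ[L] RatFunc L) (a : L) :
    φ (RatFunc.C a) = RatFunc.C a := by
  have := φ.commutes a
  rwa [RatFunc.algebraMap_eq_C] at this

private theorem gdc_C' {L : Type} [Field L] (φ : RatFunc L ≃ₐ[L] RatFunc L) (a : L) :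
    φ (RatFunc.C a) = RatFunc.C a := by
  have := φ.commutes a
  rwa [RatFunc.algebraMap_eq_C] at this

private theorem gdc_inv {L : Type} [Field L] (D : Derivation ℤ (RatFunc L) (RatFunc L))
    (g : RatFunc L) : D g⁻¹ = - (g⁻¹) ^ 2 * D g := by
  rw [Derivation.leibniz_inv]
  simp [smul_eq_mul]

theorem pGDC (h1 : StORD) (h2 : StREG) (h3 : StFIN) (_h4 : StDER) (h5 : StIOT) (_h6 : StTRN)
    (h7 : StCMP) (h8 : StLUR) : StGDC := by
  intro L _ _ _ ι hι r dl lam u D hD k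
  obtain ⟨φ₀, hφ₀⟩ := h8 L r dl lam u D hD k
  obtain ⟨U₀, hU₀⟩ := hφ₀.top (u k) (fun l hl => hD.kill l k (Ne.symm hl))
  obtain ⟨h₀, hh₀⟩ := hφ₀.top (D k (φ₀ RatFunc.X)) (fun l hl => by
    rw [hD.dcomm l k, hφ₀.mem l hl, map_zero])
  obtain ⟨_, fin2, fin3⟩ := h3 L
  obtain ⟨_, ⟨n, rfl⟩, hn⟩ := (Set.infinite_range_of_injective
    (Nat.cast_injective (R := L))).exists_notMem_finite
      ((fin2 h₀).union (fin3 (leg (lam k) U₀)))
  have hn1 : Reg (n : L) h₀ := by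
    by_contra h
    exact hn (Or.inl h)
  have hn2 : ord (n : L) (leg (lam k) U₀) = 0 := by
    by_contra h
    exact hn (Or.inr h)
  obtain ⟨_, _, iot3, _, _, _⟩ := h5 L
  obtain ⟨ψ, hψ⟩ := iot3 0 1 1 (-(n : L)) (by norm_num)
  have hψX : ψ RatFunc.X = (RatFunc.X - RatFunc.C (n : L))⁻¹ := by
    rw [hψ, map_zero, map_one, map_neg, zero_mul, zero_add, one_mul, one_div, sub_eq_add_neg]
  have hXn : (RatFunc.X - RatFunc.C (n : L) : RatFunc L) ≠ 0 := by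
    intro h
    rw [h, inv_zero] at hψX
    have : (RatFunc.X : RatFunc L) = 0 := by
      apply ψ.injective
      rw [hψX, map_zero]
    exact RatFunc.X_ne_zero this
  have hψs : ψ.symm RatFunc.X = RatFunc.C (n : L) + RatFunc.X⁻¹ := by
    rw [AlgEquiv.symm_apply_eq, map_add, map_inv₀, hψX, inv_inv, gdc_C']
    ring
  set χ : RatFunc L →ₐ[L] RatFunc L := ((ψ.symm.trans ι : RatFunc L ≃ₐ[L] RatFunc L) :
    RatFunc L →ₐ[L] RatFunc L) with hχ
  have hχa : ∀ g, χ g = ι (ψ.symm g) := fun g => rfl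
  have hχX : χ RatFunc.X = RatFunc.C (n : L) + RatFunc.X := by
    rw [hχa, hψs, map_add, map_inv₀, hι, inv_inv, gdc_C']
  obtain ⟨_, _, _, _, reg5, reg6, reg7, reg8, _⟩ := h2 L 0
  have hsum := reg7 (RatFunc.C (n : L)) RatFunc.X (reg5 (n : L)).1 reg6.1
  have hr1 : Reg 0 (χ RatFunc.X) := by
    rw [hχX]
    exact hsum.1
  have hr2 : ev 0 (χ RatFunc.X) = (n : L) := by
    rw [hχX, hsum.2.1, (reg5 (n : L)).2, reg6.2, add_zero]
  obtain ⟨_, cmp2, cmp3, _⟩ := h7 L 0 (n : L) χ hr1 hr2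
  have hDc : ∀ l, D l (RatFunc.C (n : L)) = 0 := by
    intro l
    rw [hD.lift, Derivation.map_natCast, map_zero]
  have hφX : φ₀ (ψ RatFunc.X) = (φ₀ RatFunc.X - RatFunc.C (n : L))⁻¹ := by
    rw [hψX, map_inv₀, map_sub, gdc_C]
  have hDφ : ∀ l, D l (φ₀ (ψ RatFunc.X)) =
      - ((φ₀ RatFunc.X - RatFunc.C (n : L))⁻¹) ^ 2 * D l (φ₀ RatFunc.X) := by
    intro l
    rw [hφX, gdc_inv, map_sub, hDc, sub_zero]
  refine ⟨φ₀.comp (ψ : RatFunc L →ₐ[L] RatFunc L), ψ.symm U₀,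
    - RatFunc.X ^ 2 * ψ.symm h₀, ⟨⟨?_, ?_⟩, ?_, ?_, ?_, ?_⟩⟩
  · intro l hl
    change D l (φ₀ (ψ RatFunc.X)) = 0
    rw [hDφ, hφ₀.mem l hl, mul_zero]
  · intro w hw
    obtain ⟨g, hg⟩ := hφ₀.top w hw
    refine ⟨ψ.symm g, ?_⟩
    change φ₀ (ψ (ψ.symm g)) = w
    rw [AlgEquiv.apply_symm_apply, hg]
  · change φ₀ (ψ (ψ.symm U₀)) = u k
    rw [AlgEquiv.apply_symm_apply, hU₀]
  · change φ₀ (ψ (- RatFunc.X ^ 2 * ψ.symm h₀)) = D k (φ₀ (ψ RatFunc.X))
    rw [hDφ, ← hφX, ← hh₀]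
    simp only [map_mul, map_neg, map_pow, AlgEquiv.apply_symm_apply]
  · have : (RatFunc.X ^ 2 * ι (- RatFunc.X ^ 2 * ψ.symm h₀) : RatFunc L) = - χ h₀ := by
      rw [hχa, map_mul, map_neg, map_pow, hι]
      have hX : (RatFunc.X : RatFunc L) ≠ 0 := RatFunc.X_ne_zero
      field_simp
    rw [this]
    exact (reg8 _ (cmp3 h₀ hn1).1).1
  · have : leg (lam k) (ι (ψ.symm U₀)) = χ (leg (lam k) U₀) := by
      unfold leg
      rw [map_mul, map_mul, map_sub, map_sub, map_one, gdc_C, hχa]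
    rw [this]
    by_cases h0 : leg (lam k) U₀ = 0
    · obtain ⟨_, _, _, _, _, _, _, ord8, _⟩ := h1 L 0
      rw [h0, map_zero, ← map_zero (RatFunc.C : L →+* RatFunc L), ord8]
      exact Even.zero
    · rw [cmp2 _ h0, hn2, mul_zero]
      exact Even.zero

end Pool.Agent.Helper28.RK
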